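import Pool.Agent.K3h49.SR.Fin

set_option autoImplicit false

/-!
# Splay trees: almost all relabellings of an arbitrary request sequence

`Tr`, `keys`, `costSplay` are those of `Pool.Agent.H581R2.SplayDef`; `optAny` is the optimum with a
free choice of the initial tree (`Pool.Agent.TH49.Spl.Defs`); `wsum [] Y` is the sum of `log₂ (t + 1)`
over the requests `Y`, where `t` is the working set number (`Pool.Agent.Y395.SP.Stm`).

`X` is an arbitrary sequence of `m` requests of the `n` keys in `K`, `W` is the sum of `log₂ (t + 1)`
for `X`. A permutation `σ` of the keys gives the relabelled requests `relab σ X`. For every natural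
number `a`, outside an exceptional set of at most `n! / 2^(2^a)` permutations:

(1) `W ≤ 160 OPT(σ X) + (a + 5) m`, where OPT may choose its initial tree;

(2) splaying `σ X` costs at most `(6 a + 998) OPT(σ X) + 8 n log₂ n`, for every initial tree;

(3) if `(a + 5) m ≤ (1 - ε) W` then splaying `σ X` costs at most
`(8 + 960 / ε) OPT(σ X) + 8 n log₂ n`, for every initial tree.

Proof. Reference tree: halve the set of keys again and again. Consider the `2^d` nodes of level `d`
and a window of `X` with `8 · 2^d` different keys. For all but a proportion `0.504^(2^d)` of the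
permutations at least half of the nodes have keys of the window on both sides; this gives `2^(d-1)`
changes of side in the window. Every window contains at most `8 · 2^d` requests with `t ≥ 8 · 2^d`.
Markov's inequality over the windows of each level, summed over the levels `d ≥ a + 2`, and the
interleave bound give (1). The working set bound gives (2) and (3).
-/

namespace Pool.Agent.Results.MP_c42954_lc.AlmostAllRelabellings

open Pool.Agent.H581R2.Splay Pool.Agent.TH49.Spl Pool.Agent.Y395.SP Pool.Agent.K3h49.SR

open scoped Classical in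
theorem result (K : Finset ℕ) (X : List {x // x ∈ K}) (a : ℕ) :
    ((Finset.univ.filter (fun σ : Equiv.Perm {x // x ∈ K} =>
        160 * (optAny K.sort (relab σ X) : ℝ) + (a + 5) * X.length <
          wsum [] (X.map Subtype.val))).card : ℝ) ≤
      (1 / 2 : ℝ) ^ 2 ^ a * K.card.factorial ∧
    ((Finset.univ.filter (fun σ : Equiv.Perm {x // x ∈ K} => ∃ T : Tr, keys T = K.sort ∧
        (6 * a + 998) * (optAny K.sort (relab σ X) : ℝ) +
          8 * ((K.card : ℝ) * Real.logb 2 K.card) < costSplay T (relab σ X))).card : ℝ) ≤
      (1 / 2 : ℝ) ^ 2 ^ a * K.card.factorial ∧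
    ∀ ε : ℝ, 0 < ε →
      (a + 5) * (X.length : ℝ) ≤ (1 - ε) * wsum [] (X.map Subtype.val) →
      ((Finset.univ.filter (fun σ : Equiv.Perm {x // x ∈ K} => ∃ T : Tr, keys T = K.sort ∧
          (8 + 960 / ε) * (optAny K.sort (relab σ X) : ℝ) +
            8 * ((K.card : ℝ) * Real.logb 2 K.card) < costSplay T (relab σ X))).card : ℝ) ≤
        (1 / 2 : ℝ) ^ 2 ^ a * K.card.factorial := by
  by_cases hX : X = []
  · subst hX
    have h0 : (0 : ℝ) ≤ (1 / 2 : ℝ) ^ 2 ^ a * K.card.factorial := by positivity
    have hlog : (0 : ℝ) ≤ 8 * ((K.card : ℝ) * Real.logb 2 K.card) := by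
      rcases Nat.eq_zero_or_pos K.card with h | h
      · simp [h]
      · have h1 : (1 : ℝ) ≤ K.card := by exact_mod_cast h
        have h2 := Real.logb_nonneg (b := 2) (by norm_num) h1
        positivity
    have key : ∀ c : ℝ, 0 ≤ c →
        ((Finset.univ.filter (fun σ : Equiv.Perm {x // x ∈ K} => ∃ T : Tr, keys T = K.sort ∧
          c * (optAny K.sort (relab σ []) : ℝ) +
            8 * ((K.card : ℝ) * Real.logb 2 K.card) < costSplay T (relab σ []))).card : ℝ) ≤
        (1 / 2 : ℝ) ^ 2 ^ a * K.card.factorial := by
      intro c hc
      rw [Finset.filter_eq_empty_iff.2]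
      · simpa using h0
      · rintro σ _ ⟨T, _, h⟩
        have e : costSplay T (relab σ []) = 0 := rfl
        rw [e, Nat.cast_zero] at h
        have : (0 : ℝ) ≤ c * (optAny K.sort (relab σ []) : ℝ) := by positivity
        linarith
    refine ⟨?_, key _ (by positivity), fun ε hε _ => key _ (by positivity)⟩
    rw [Finset.filter_eq_empty_iff.2]
    · simpa using h0
    · intro σ _ h
      simp only [List.map_nil, wsum, List.length_nil, Nat.cast_zero, mul_zero, add_zero] at h
      have : (0 : ℝ) ≤ 160 * (optAny K.sort (relab σ []) : ℝ) := by positivity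
      linarith
  · exact ⟨opt_all' X hX a, tail_all X hX a, fun ε hε h => const_all X hX a hε h⟩

end Pool.Agent.Results.MP_c42954_lc.AlmostAllRelabellings
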