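import Pool.Agent.K3h49.SR.Arith

set_option autoImplicit false

/-!
# Splay trees: a bound for every request sequence in terms of close keys in windows

`Tr`, `keys`, `IsBST`, `costSplay` are those of `Pool.Agent.H581R2.SplayDef`; `optAny` is the optimum
with a free choice of the initial tree (`Pool.Agent.TH49.Spl.Defs`); `wsum [] X` is the sum of
`log₂ (t + 1)` over the requests `X`, where `t` is the working set number
(`Pool.Agent.Y395.SP.Stm`); `windows`, `closePairs`, `closeSum` are in `Pool.Agent.K3h49.SR.Clo`.

`T` is any search tree with `n` keys, which are natural numbers less than `N`, and `b ≥ 1`.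

(1) For EVERY sequence `X` of `m` requests the sum of `log₂ (t + 1)` is at most
`m + b (10 OPT(X) + P)`, and splaying costs at most `(60 b + 14) OPT(X) + 6 b P + 8 n log₂ n`. Here
`P` counts close keys in windows: `X` is cut into consecutive windows with `2^(j b + 1)` different
keys, and `P` is the number of ordered pairs of different keys in one window whose difference is at
most `(N - 1) / 2^(j b + b)`, over all windows and all `j`. (Search trees depend on the order of the
keys only, so the keys may be replaced by other numbers in the same order.)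

(2) If any two different keys in a segment of `X` with `k` different keys differ by at least
`c N / k`, and `2 ≤ c 2^b`, then splaying costs at most `(60 b + 14) OPT(X) + 8 n log₂ n`. So splaying
is `O (log (2 + 1 / c))`-competitive on sequences of low discrepancy.

(3) For instance, let `X` be `0, a, 2 a, 3 a, …` modulo `N`, and let `c N ≤ |a d - e N| d` for all
`0 < d < N` and all integers `e` (if `a` and `N` are coprime then `1 / c` is at most the greatest
partial quotient of `a / N` plus two). If `2 ≤ c 2^b` then the bound of (2) holds.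
-/

namespace Pool.Agent.Results.MP_c42954_lc.CloseKeysInWindows

open Pool.Agent.H581R2.Splay Pool.Agent.TH49.Spl Pool.Agent.Y395.SP Pool.Agent.K3h49.SR

theorem result (T : Tr) (hT : IsBST T) (N b : ℕ) (hN : ∀ k ∈ keys T, k < N) (hb : 1 ≤ b) :
    (∀ X : List ℕ, (∀ x ∈ X, x ∈ keys T) →
      wsum [] X ≤ X.length + b * (10 * (optAny (keys T) X : ℝ) +
        closeSum N b (keys T).length X) ∧
      (costSplay T X : ℝ) ≤ (60 * b + 14) * (optAny (keys T) X : ℝ) +
        6 * b * closeSum N b (keys T).length X +
        8 * ((keys T).length * Real.logb 2 (keys T).length)) ∧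
    (∀ (X : List ℕ) (c : ℝ), (∀ x ∈ X, x ∈ keys T) →
      (∀ S : List ℕ, S <:+: X → ∀ x ∈ S, ∀ y ∈ S, x < y →
        c * N ≤ ((y : ℝ) - x) * S.toFinset.card) → 2 ≤ c * 2 ^ b →
      (costSplay T X : ℝ) ≤ (60 * b + 14) * (optAny (keys T) X : ℝ) +
        8 * ((keys T).length * Real.logb 2 (keys T).length)) ∧
    (∀ (a m : ℕ) (c : ℝ), keys T = List.range N → 0 < N →
      (∀ (d : ℕ) (e : ℤ), 0 < d → d < N → c * N ≤ |(a * d - e * N : ℤ)| * (d : ℝ)) →
      2 ≤ c * 2 ^ b →
      (costSplay T ((List.range m).map fun j => a * j % N) : ℝ) ≤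
        (60 * b + 14) * (optAny (keys T) ((List.range m).map fun j => a * j % N) : ℝ) +
        8 * (N * Real.logb 2 N)) := by
  have h2 : ∀ (X : List ℕ) (c : ℝ), (∀ x ∈ X, x ∈ keys T) →
      (∀ S : List ℕ, S <:+: X → ∀ x ∈ S, ∀ y ∈ S, x < y →
        c * N ≤ ((y : ℝ) - x) * S.toFinset.card) → 2 ≤ c * 2 ^ b →
      (costSplay T X : ℝ) ≤ (60 * b + 14) * (optAny (keys T) X : ℝ) +
        8 * ((keys T).length * Real.logb 2 (keys T).length) := by
    intro X c hX hS hc
    have h := det_splay hT hN hX hb
    rw [closeSum_zero hS hc (fun x hx => hN x (hX x hx)), Nat.cast_zero, mul_zero, add_zero] at h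
    exact h
  refine ⟨fun X hX => ⟨det hT hN hX hb, det_splay hT hN hX hb⟩, h2, ?_⟩
  intro a m c hK hN0 hc hcb
  have hc0 : 0 < c := by
    by_contra hcon
    push Not at hcon
    have : c * 2 ^ b ≤ 0 := mul_nonpos_of_nonpos_of_nonneg hcon (by positivity)
    linarith
  have h := h2 (ap a N m) c (by
    intro x hx
    unfold ap at hx
    rw [List.mem_map] at hx
    obtain ⟨j, _, rfl⟩ := hx
    rw [hK, List.mem_range]
    exact Nat.mod_lt _ hN0) (ap_spread hc0 hN0 hc) hcb
  rw [show (keys T).length = N by rw [hK, List.length_range]] at h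
  exact h

end Pool.Agent.Results.MP_c42954_lc.CloseKeysInWindows
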