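import Pool.Agent.K3h49.SR.Mul

set_option autoImplicit false

/-!
# Splay trees: few relabellings of an arbitrary request sequence

`Tr`, `keys`, `costSplay` are those of `Pool.Agent.H581R2.SplayDef`; `optAny` is the optimum with a
free choice of the initial tree (`Pool.Agent.TH49.Spl.Defs`); `wsum [] Y` is the sum of `log₂ (t + 1)`
over the requests `Y`, where `t` is the working set number (`Pool.Agent.Y395.SP.Stm`).

(1) Let `ρ i` be a finite family of labellings of a finite set by different numbers less than `n`,
such that for two different elements and every `t ≥ 1` at most a proportion `A t / (n - 1)` of the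
labellings gives them labels which differ by at most `t` (`Spread ρ A n`; for instance `A = 2` for
every family of bijections which is uniform on pairs). Then for EVERY request sequence `X` and every
`b ≥ 1`, for all but a proportion `4 A / 2^b` of the labellings, the sum of `log₂ (t + 1)` is at most
`(20 b + 1) OPT` and splaying costs at most `(120 b + 14) OPT + 8 n log₂ n`, for every initial tree,
where OPT may choose its initial tree and refers to the labelled sequence.

(2) In particular, for a prime `p` and every sequence `X` of residues modulo `p` this holds for all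
but a proportion `8 / 2^b` of the `p - 1` sequences `a X mod p`, `a = 1, …, p - 1`.

Proof. Reference tree: intervals are halved again and again. A window of `X` with `2^(d+1)` different
keys has keys on both sides of `2^(d+1) - 1` nodes; at most `2^d - 1` of them are above level `d`, and
below level `d + b` there are at most as many as pairs of keys of the window within distance
`(n - 1) / 2^(d+b)`, on average at most `A 2^(d+1) / 2^b`. So there are many changes of side at the
nodes of the levels `d, …, d + b - 1` in the window. A window contains at most `2^(d+1)` requests with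
`t ≥ 2^(d+1)`. Sum over all windows and all `d` divisible by `b`, use Markov's inequality once, the
interleave bound and the working set bound.
-/

namespace Pool.Agent.Results.MP_c42954_lc.FewRelabellings

open Pool.Agent.H581R2.Splay Pool.Agent.TH49.Spl Pool.Agent.Y395.SP Pool.Agent.K3h49.SR

open scoped Classical in
theorem result :
    (∀ (κ ι : Type) [Fintype κ] [Fintype ι] (n : ℕ) (ρ : ι → κ → ℕ) (A : ℝ), 0 ≤ A →
      (∀ i, Function.Injective (ρ i)) → (∀ i x, ρ i x < n) → Spread ρ A n →
      ∀ (X : List κ) (b : ℕ), 1 ≤ b →
      ((Finset.univ.filter (fun i : ι =>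
          (20 * b + 1) * (optAny (List.range n) (X.map (ρ i)) : ℝ) <
            wsum [] (X.map (ρ i)))).card : ℝ) ≤ 4 * A * (1 / 2) ^ b * Fintype.card ι ∧
      ((Finset.univ.filter (fun i : ι => ∃ T : Tr, keys T = List.range n ∧
          (120 * b + 14) * (optAny (List.range n) (X.map (ρ i)) : ℝ) +
            8 * ((n : ℝ) * Real.logb 2 n) < costSplay T (X.map (ρ i)))).card : ℝ) ≤
        4 * A * (1 / 2) ^ b * Fintype.card ι) ∧
    (∀ (p : ℕ) [Fact p.Prime] (X : List (ZMod p)) (b : ℕ), 1 ≤ b →
      ((Finset.univ.filter (fun a : (ZMod p)ˣ => ∃ T : Tr, keys T = List.range p ∧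
          (120 * b + 14) *
              (optAny (List.range p) (X.map fun x => ((a : ZMod p) * x).val) : ℝ) +
            8 * ((p : ℝ) * Real.logb 2 p) <
              costSplay T (X.map fun x => ((a : ZMod p) * x).val))).card : ℝ) ≤
        8 * (1 / 2) ^ b * (p - 1)) := by
  refine ⟨?_, ?_⟩
  · intro κ ι _ _ n ρ A hA hinj hlt hS X b hb
    exact ⟨few hA hinj hlt hS X hb, few_splay hA hinj hlt hS X hb⟩
  · intro p _ X b hb
    have h := few_splay (ρ := fun (a : (ZMod p)ˣ) (x : ZMod p) => ((a : ZMod p) * x).val)
      (n := p) (by norm_num : (0 : ℝ) ≤ 2) (fun a => mul_inj a) (fun a x => ZMod.val_lt _)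
      mul_spread X hb
    refine h.trans (le_of_eq ?_)
    have hp := (Fact.out : p.Prime)
    have hcard : (Fintype.card (ZMod p)ˣ : ℝ) = (p : ℝ) - 1 := by
      rw [ZMod.card_units_eq_totient, Nat.totient_prime hp, Nat.cast_sub hp.one_le, Nat.cast_one]
    rw [hcard]
    ring

end Pool.Agent.Results.MP_c42954_lc.FewRelabellings
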