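import Pool.Agent.K3h49.SR.Smo2

set_option autoImplicit false

/-!
# Splay trees: smoothed key values

`Tr`, `keys`, `costSplay` are those of `Pool.Agent.H581R2.SplayDef`; `optAny` is the optimum with a
free choice of the initial tree (`Pool.Agent.TH49.Spl.Defs`); `wsum [] Y` is the sum of `log₂ (t + 1)`
over the requests `Y`, where `t` is the working set number (`Pool.Agent.Y395.SP.Stm`).

There are `n` keys (the elements of `κ`), and every key `x` gets its value `f x (u x)` in
`0, …, N - 1` at random: the `u x` are independent and uniform in a finite set `Ω`. An adversary may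
choose the distributions of the values, but their density is bounded: every interval of length `ℓ`
contains the value of `x` with probability at most `A ℓ / N`. He also chooses the request sequence
`X`, of length `m`, before the values are drawn. Let `128 A ≤ 2^b`. For every natural number `α`:

(1) the probability that the values are different and `W > 40 b OPT + (α + 2) m` is at most
`1 / 2^(2^α)`, where `W` is the sum of `log₂ (t + 1)` and OPT may choose its initial tree;

(2) the probability that the values are different and splaying costs, from some initial tree, more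
than `(240 b + 6 α + 20) OPT + 8 n log₂ n` is at most `1 / 2^(2^α)`;

(3) in particular, arbitrary base values `a x ≤ M` may be perturbed by independent uniform noise
in `0, …, R - 1`: if `128 (M + R) ≤ 2^b R` then the bound of (2) holds. So if the noise is an
`ε`-fraction of the range, splaying is `O (log (2 / ε))`-competitive with overwhelming probability.

Proof. Reference tree: intervals are halved again and again. A window of `X` with `k = 2^(d+2)`
different keys has keys on both sides of at least `3 k / 4` nodes of level at least `d`, and all of
them but the collisions in the nodes of level `d + b` are of level less than `d + b`. The number of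
collisions is at least `k / 2` with probability at most `2^(-k)` (reveal the values one by one and use
the exponential moment). Markov's inequality over the windows of one scale, the union bound over the
scales, the interleave bound and the working set bound.
-/

namespace Pool.Agent.Results.MP_c42954_lc.SmoothedKeys

open Pool.Agent.H581R2.Splay Pool.Agent.TH49.Spl Pool.Agent.Y395.SP Pool.Agent.K3h49.SR

open scoped Classical in
theorem result :
    (∀ (κ Ω : Type) [Fintype κ] [Fintype Ω] (f : κ → Ω → ℕ) (A : ℝ) (N b : ℕ), 0 ≤ A →
      (∀ x ω, f x ω < N) →
      (∀ (x : κ) (l ℓ : ℕ), 1 ≤ ℓ →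
        ((Finset.univ.filter fun ω => l ≤ f x ω ∧ f x ω < l + ℓ).card : ℝ) * N ≤
          A * ℓ * Fintype.card Ω) →
      1 ≤ b → 128 * A ≤ 2 ^ b → ∀ (X : List κ) (α : ℕ),
      ((Finset.univ.filter fun u : κ → Ω => Function.Injective (fun x => f x (u x)) ∧
          40 * b * (optAny (Finset.univ.image fun x => f x (u x)).sort
              (X.map fun x => f x (u x)) : ℝ) +
            (α + 2) * X.length < wsum [] (X.map fun x => f x (u x))).card : ℝ) ≤
        (1 / 2 : ℝ) ^ 2 ^ α * (Fintype.card Ω : ℝ) ^ Fintype.card κ ∧
      ((Finset.univ.filter fun u : κ → Ω => Function.Injective (fun x => f x (u x)) ∧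
          ∃ T : Tr, keys T = (Finset.univ.image fun x => f x (u x)).sort ∧
          (240 * b + 6 * α + 20) * (optAny (Finset.univ.image fun x => f x (u x)).sort
              (X.map fun x => f x (u x)) : ℝ) +
            8 * ((Fintype.card κ : ℝ) * Real.logb 2 (Fintype.card κ)) <
              costSplay T (X.map fun x => f x (u x))).card : ℝ) ≤
        (1 / 2 : ℝ) ^ 2 ^ α * (Fintype.card Ω : ℝ) ^ Fintype.card κ) ∧
    (∀ (κ : Type) [Fintype κ] (a : κ → ℕ) (M R b : ℕ), (∀ x, a x ≤ M) → 1 ≤ b →
      128 * (M + R) ≤ 2 ^ b * R → ∀ (X : List κ) (α : ℕ),
      ((Finset.univ.filter fun u : κ → Fin R =>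
          Function.Injective (fun x => a x + (u x : ℕ)) ∧
          ∃ T : Tr, keys T = (Finset.univ.image fun x => a x + (u x : ℕ)).sort ∧
          (240 * b + 6 * α + 20) * (optAny (Finset.univ.image fun x => a x + (u x : ℕ)).sort
              (X.map fun x => a x + (u x : ℕ)) : ℝ) +
            8 * ((Fintype.card κ : ℝ) * Real.logb 2 (Fintype.card κ)) <
              costSplay T (X.map fun x => a x + (u x : ℕ))).card : ℝ) ≤
        (1 / 2 : ℝ) ^ 2 ^ α * (R : ℝ) ^ Fintype.card κ) := by
  refine ⟨?_, ?_⟩
  · intro κ Ω _ _ f A N b hA hfN hf hb1 hAb X α
    exact ⟨smo_opt hA hfN hf hb1 hAb X α, smo_splay hA hfN hf hb1 hAb X α⟩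
  · intro κ _ a M R b ha hb1 hMR X α
    rcases Nat.eq_zero_or_pos R with h0 | h0
    · subst h0
      have h1 : ∀ s : Finset (κ → Fin 0), (s.card : ℝ) ≤ (0 : ℝ) ^ Fintype.card κ := by
        intro s
        have h2 : s.card ≤ Fintype.card (κ → Fin 0) := Finset.card_le_univ s
        rw [Fintype.card_fun, Fintype.card_fin] at h2
        exact_mod_cast h2
      by_cases hκ : IsEmpty κ
      · have hX : X = [] := by
          cases X with
          | nil => rfl
          | cons x X => exact (hκ.false x).elim
        subst hX
        rw [Finset.filter_eq_empty_iff.2]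
        · rw [Finset.card_empty, Nat.cast_zero]; positivity
        · rintro u _ ⟨_, T, _, h⟩
          have e : costSplay T (([] : List κ).map fun x => a x + (u x : ℕ)) = 0 := rfl
          rw [e, Fintype.card_eq_zero] at h
          simp only [Nat.cast_zero, zero_mul, mul_zero, add_zero] at h
          have : (0 : ℝ) ≤ (240 * b + 6 * α + 20) *
              (optAny (Finset.univ.image fun x => a x + (u x : ℕ)).sort
              (([] : List κ).map fun x => a x + (u x : ℕ)) : ℝ) := by positivity
          linarith
      · rw [not_isEmpty_iff] at hκ
        have h3 : Fintype.card κ ≠ 0 := Fintype.card_ne_zero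
        refine (h1 _).trans ?_
        rw [zero_pow h3]
        push_cast
        rw [zero_pow h3, mul_zero]
    have h0' : (0 : ℝ) < R := by exact_mod_cast h0
    have h := smo_splay (f := fun (x : κ) (ω : Fin R) => a x + (ω : ℕ))
      (A := ((M : ℝ) + R) / R) (N := M + R) (by positivity)
      (fun x ω => by have := ha x; have := ω.2; omega)
      (by
        intro x l ℓ _
        have h1 : (Finset.univ.filter fun ω : Fin R =>
            l ≤ a x + (ω : ℕ) ∧ a x + (ω : ℕ) < l + ℓ).card ≤ ℓ := by
          have h2 : (Finset.univ.filter fun ω : Fin R =>
              l ≤ a x + (ω : ℕ) ∧ a x + (ω : ℕ) < l + ℓ).card ≤ (Finset.Ico l (l + ℓ)).card := by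
            refine Finset.card_le_card_of_injOn (fun ω => a x + (ω : ℕ)) ?_ ?_
            · intro ω hω
              rw [Finset.mem_coe, Finset.mem_filter] at hω
              rw [Finset.mem_coe, Finset.mem_Ico]
              exact hω.2
            · intro ω _ ω' _ e
              exact Fin.ext (by simpa using e)
          rwa [Nat.card_Ico, Nat.add_sub_cancel_left] at h2
        have h2 : ((Finset.univ.filter fun ω : Fin R =>
            l ≤ a x + (ω : ℕ) ∧ a x + (ω : ℕ) < l + ℓ).card : ℝ) ≤ ℓ := by exact_mod_cast h1
        rw [Fintype.card_fin]
        have e : ((M : ℝ) + R) / R * ℓ * R = ℓ * (M + R) := by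
          field_simp
        rw [e]
        push_cast
        exact mul_le_mul_of_nonneg_right h2 (by positivity))
      hb1 (by
        rw [← mul_div_assoc, div_le_iff₀ h0']
        exact_mod_cast hMR) X α
    rw [Fintype.card_fin] at h
    exact h

end Pool.Agent.Results.MP_c42954_lc.SmoothedKeys
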